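import Pool.Agent.T2H09.Bor.Thr

set_option autoImplicit false
open Polynomial

/-!
# MP_c113aa_an: every polynomial has one critical exponent

`hdist F = h(F, F')`, `sigma p F = σ_p(F)`, `IsPure F`: `F = a (z - c)^n - b`.

Each polynomial which is not of the form `a (z - c)^n - b` has a finite critical exponent `p₀`; it
violates Q1 for at most one `p`. Q1 for all `p > q` is equivalent, for each single polynomial, to
Borcea's inequality at `q`.
-/

namespace Pool.Agent.Results.MP_c113aa_an.CriticalExponent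

open Pool.Agent.V1148.Bor Pool.Agent.T2H09.Bor

theorem result :
    (∀ F : ℂ[X], 2 ≤ F.natDegree → ¬ IsPure F → ∃ p₀ : ℝ, 0 ≤ p₀ ∧
      (∀ p : ℝ, p₀ < p → hdist F < sigma p F) ∧
      (∀ p : ℝ, 0 < p → p < p₀ → sigma p F < hdist F) ∧
      (∀ p : ℝ, 0 < p → (hdist F = sigma p F ↔ p = p₀))) ∧
    (∀ F : ℂ[X], 2 ≤ F.natDegree → ∀ q : ℝ, 1 ≤ q →
      ((∀ p : ℝ, q < p → (hdist F = sigma p F ↔ IsPure F)) ↔ hdist F ≤ sigma q F)) := by
  refine ⟨fun F hn hF => threshold hn hF, fun F hn q hq => ?_⟩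
  rw [equivalence' hn hq]
  exact ⟨fun h => h q le_rfl, fun h p hp =>
    h.trans (sigma_mono (by omega) (by linarith) hp)⟩

end Pool.Agent.Results.MP_c113aa_an.CriticalExponent
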