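import Pool.Agent.T2H09.Bor.Near

set_option autoImplicit false
open Polynomial
open scoped Classical

/-!
# MP_c113aa_an: counterexamples of large degree are nearly circular

`hdist F = h(F, F')`, `sigma p F = σ_p(F)`, `pmean p F c` the power mean of the distances of the
zeros to `c` (so `σ_p` is its minimum over `c`).

For `p > 1` and `0 < ε < 1` there is `K` such that every `F` of degree `n ≥ 2` with
`σ_p(F) ≤ h(F, F')` (in particular every counterexample to Q1 for `p`) has, for each minimising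
centre `c`, at most `K n^(5/6)` zeros (with multiplicity) outside the annulus
`(1 - ε) σ_p ≤ |z - c| ≤ (1 + ε) σ_p`; moreover `h ≤ (1 + 2^29 n^(-1/6)) σ_1`.
-/

namespace Pool.Agent.Results.MP_c113aa_an.NearlyCircular

open Pool.Agent.V1148.Bor Pool.Agent.T2H09.Bor

theorem result (p : ℝ) (hp : 1 < p) (ε : ℝ) (hε : 0 < ε) (hε1 : ε < 1) :
    ∃ K : ℝ, ∀ F : ℂ[X], 2 ≤ F.natDegree → sigma p F ≤ hdist F →
      hdist F ≤ (1 + 2 ^ 29 * (F.natDegree : ℝ) ^ (-(1 / 6) : ℝ)) * sigma 1 F ∧
      ∀ c : ℂ, pmean p F c = sigma p F →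
        ((F.roots.filter fun z => ε * sigma p F < |‖z - c‖ - sigma p F|).card : ℝ) ≤
          K * (F.natDegree : ℝ) ^ (5 / 6 : ℝ) := by
  obtain ⟨K, hK⟩ := nearly hp hε hε1
  exact ⟨K, fun F hn hF => ⟨hdist_le hn, hK F hn hF⟩⟩

end Pool.Agent.Results.MP_c113aa_an.NearlyCircular
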