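import Pool.Agent.T2H09.Bor.Two

set_option autoImplicit false
open Polynomial

/-!
# MP_c113aa_an: families of polynomials for which Q1 holds for every `p > 1`

`hdist F = h(F, F')`, `sigma p F = σ_p(F)`, `IsPure F`: `F = a (z - c)^n - b`.

Borcea's inequality `h ≤ σ_1` and Q1 for all `p > 1` hold for all polynomials of degree at most
three, for all polynomials whose zeros are the image of the vertices of a regular `n`-gon under a
real affine map of the plane, for `A (z - s)^(2m) + B (z - s)^m + D`, for collinear zeros and for
zeros on a circle about their centroid.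
-/

namespace Pool.Agent.Results.MP_c113aa_an.SymmetricFamilies

open Pool.Agent.V1148.Bor Pool.Agent.T2H09.Bor

theorem result : ∀ F : ℂ[X], 2 ≤ F.natDegree →
    (F.natDegree ≤ 3 ∨ AffineRegular F ∨ TwoOrbits F ∨ Collinear F ∨ CentredCircle F) →
    hdist F ≤ sigma 1 F ∧ ∀ p : ℝ, 1 < p → (hdist F = sigma p F ↔ IsPure F) := by
  intro F hn hF
  have h1 : hdist F ≤ sigma 1 F := by
    by_cases h2 : F.natDegree = 2
    · exact (pure_eq hn (quadratic_pure h2) le_rfl).le
    · rcases hF with h | h | h | h | h
      · exact borcea_affine (by omega) (cubic_affine (by omega))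
      · exact borcea_affine (by omega) h
      · obtain ⟨s, A, B, D, m, hm, hA, hF⟩ := h
        have hd := two_natDegree hm hA hF
        exact borcea_two (by omega) hA hd hF
      · exact borcea_collinear hn h
      · exact borcea_circle hn h
  exact ⟨h1, (equivalence' hn le_rfl).2 fun p hp =>
    h1.trans (sigma_mono (by omega) one_pos hp)⟩

end Pool.Agent.Results.MP_c113aa_an.SymmetricFamilies
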